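import Pool.Agent.Helper22.Stek.Max

/-!
# The second Steklov eigenvalue of an annulus and the lengths of its two boundary circles

Let `g = G (H² dr² + dθ²)` be a smooth metric on the annulus `[0,1] × ℝ/2πℤ` which is conformal to the
cylinder of height `H` and circumference `2π` (every smooth metric is isometric to one of this form).
Let `ℓ ≤ ℓ'` be the lengths of its boundary circles. Then `σ₂ ℓ ≤ 2π` and `σ₂ ℓ' ≤ 4π`. This refines
the bound `σ₂ L ≤ 6π`, `L = ℓ + ℓ'`; the proof is a version of the method of Hersch, Payne and Schiffer
for functions on the annulus whose means over the two boundary circles are equal.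
-/

set_option autoImplicit false
open Real MeasureTheory Set

namespace Pool.Agent.Results.MP_f474b4_gt.BoundaryCircles

open Pool.Agent.Helper22.Stek

/-- **The two inequalities for the boundary circles of an annulus** -/
theorem result (E F G : ℝ × ℝ → ℝ) (H : ℝ) (h : IsIsothermal H E F G) :
    sigma2 E F G * min (side G 0) (side G 1) ≤ 2 * π ∧
    sigma2 E F G * max (side G 0) (side G 1) ≤ 4 * π := by
  refine ⟨side_min h.metric h.pos h.cross h.conf, ?_⟩
  rcases max_choice (side G 0) (side G 1) with e | e <;> rw [e]
  · exact side_zero h.metric h.pos h.cross h.conf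
  · exact side_one h.metric h.pos h.cross h.conf

end Pool.Agent.Results.MP_f474b4_gt.BoundaryCircles
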