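import Pool.Agent.Helper22.Stek.Better

/-!
# A sharp inequality for `σ₂ L` on the annulus, and metrics with an isometry of order at least three

Let `g = G (H² dr² + dθ²)` be a smooth metric on the annulus `[0,1] × ℝ/2πℤ` which is conformal to the
cylinder of height `H` and circumference `2π` (every smooth metric is isometric to one of this form).
Let `m` and `s` be the means of `e^{iθ}` and `e^{2iθ}` over the boundary with respect to the length.
Then `σ₂ L (1 - |m|² - |s - m²|) ≤ 4 π tanh (H / 2)`, with equality for the flat cylinders.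

If `g` has an isometry of order at least three, i.e. a rotation by an angle which is not a multiple of
`π`, possibly composed with the reflection `r ↦ 1 - r`, then `m = s = 0`, so that
`σ₂ L ≤ 4 π tanh (H / 2)`. (That such metrics do not maximise `σ₂ L` is in
`RestrictionsOnMaximisers`.)
-/

set_option autoImplicit false
open Real MeasureTheory Set

namespace Pool.Agent.Results.MP_f474b4_gt.IsometriesOfOrderThree

open Pool.Agent.Helper22.Stek

/-- the metric is invariant under the rotation by the angle `α`, or under this rotation composed with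
the reflection which exchanges the boundary circles; for isothermal metrics these are, up to
reflections of the circle, all possible isometries; their order is at least three if and only if
`sin α ≠ 0` -/
def HasRotation (G : ℝ × ℝ → ℝ) (α : ℝ) : Prop :=
  (∀ r ∈ Icc (0:ℝ) 1, ∀ θ : ℝ, G (r, θ + α) = G (r, θ)) ∨
    ∀ r ∈ Icc (0:ℝ) 1, ∀ θ : ℝ, G (1 - r, θ + α) = G (r, θ)

lemma HasRotation.dens {G : ℝ × ℝ → ℝ} {α : ℝ} (h : HasRotation G α) (θ : ℝ) :
    dens G (θ + α) = dens G θ := by
  have h0 : (0:ℝ) ∈ Icc (0:ℝ) 1 := by simp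
  have h1 : (1:ℝ) ∈ Icc (0:ℝ) 1 := by simp
  unfold Helper22.Stek.dens
  rcases h with h | h
  · rw [h 0 h0, h 1 h1]
  · have e0 := h 0 h0 θ
    have e1 := h 1 h1 θ
    rw [sub_zero] at e0
    rw [sub_self] at e1
    rw [e0, e1, add_comm]

/-- **The sharp inequality `σ₂ L (1 - |m|² - |s - m²|) ≤ 4 π tanh (H / 2)`**, with equality for the
flat cylinders; for metrics with an isometry of order at least three it is
`σ₂ L ≤ 4 π tanh (H / 2)` -/
theorem result :
    (∀ (E F G : ℝ × ℝ → ℝ) (H : ℝ), IsIsothermal H E F G →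
      sigma2 E F G * len G * (1 - ‖moment G 1‖ ^ 2 - ‖moment G 2 - moment G 1 ^ 2‖) ≤
        4 * π * tanh (H / 2) ∧
      ∀ α : ℝ, sin α ≠ 0 → HasRotation G α →
        sigma2 E F G * len G ≤ 4 * π * tanh (H / 2)) ∧
    ∀ H : ℝ, 0 < H → sigma2 (fun _ => H ^ 2) (fun _ => 0) (fun _ => 1) * len (fun _ => 1) =
      4 * π * tanh (H / 2) := by
  have up : ∀ (E F G : ℝ × ℝ → ℝ) (H : ℝ), IsIsothermal H E F G →
      sigma2 E F G * len G * (1 - ‖moment G 1‖ ^ 2 - ‖moment G 2 - moment G 1 ^ 2‖) ≤
        4 * π * tanh (H / 2) := fun E F G H h => upper h.metric h.pos h.cross h.conf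
  have hp := pi_pos
  refine ⟨fun E F G H h => ⟨up E F G H h, fun α hα hr => ?_⟩, fun H hH => ?_⟩
  · have m1 := moment_eq_zero h.metric hα hr.dens 1 (Or.inl rfl)
    have m2 := moment_eq_zero h.metric hα hr.dens 2 (Or.inr rfl)
    have h1 := up E F G H h
    rw [m1, m2] at h1
    simp only [norm_zero, ne_eq, OfNat.ofNat_ne_zero, not_false_eq_true, zero_pow, sub_zero,
      mul_one] at h1
    exact h1
  · have hmet := flat_metric hH
    refine le_antisymm ?_ ?_
    · have h1 := up _ _ _ H ⟨hmet, hH, fun _ _ => rfl, fun _ _ => by simp⟩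
      have hs : sin 1 ≠ 0 := (sin_pos_of_pos_of_lt_pi one_pos (by linarith [pi_gt_three])).ne'
      have m1 := moment_eq_zero hmet hs (fun _ => rfl) 1 (Or.inl rfl)
      have m2 := moment_eq_zero hmet hs (fun _ => rfl) 2 (Or.inr rfl)
      rw [m1, m2] at h1
      simpa using h1
    · have := sigma2_flat_ge hH
      rw [flat_len]
      nlinarith

end Pool.Agent.Results.MP_f474b4_gt.IsometriesOfOrderThree
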