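import Pool.Agent.Helper22.Stek.Max

/-!
# Restrictions on the metrics on the annulus which maximise `σ₂ L`

Let `g = G (H² dr² + dθ²)` be a smooth metric on the annulus `[0,1] × ℝ/2πℤ` which is conformal to the
cylinder of height `H` and circumference `2π` (every smooth metric is isometric to one of this form).
Let `ℓ ≤ ℓ'` be the lengths of its boundary circles and `L = ℓ + ℓ'`. If `g` maximises `σ₂ L` among all
smooth metrics on the annulus, then

* the length of the longer boundary circle is between `5 L / 8` and `3 L / 4`;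
* the conformal modulus `H` is at most `23/5`;
* the means `m`, `s` of `e^{iθ}` and `e^{2iθ}` over the boundary satisfy
  `|m|² + |s - m²| ≥ 1 - (3/4) tanh (H/2)`;
* no isometry exchanges the boundary circles, and no rotation except possibly the rotation by `π` is an
  isometry; if the rotation by `π` is an isometry, then `H ≤ 2`.

The proof uses the inequalities of `BoundaryCircles` and that the supremum of `σ₂ L` is at least
`16π/3` (a disc is attached to a flat cylinder).
-/

set_option autoImplicit false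
open Real MeasureTheory Set

namespace Pool.Agent.Results.MP_f474b4_gt.RestrictionsOnMaximisers

open Pool.Agent.Helper22.Stek

/-- **The lengths of the boundary circles, the conformal modulus, the moments and the isometries of a
metric on the annulus which maximises `σ₂ L`** -/
theorem result (E F G : ℝ × ℝ → ℝ) (H : ℝ) (h : IsIsothermal H E F G) (hM : IsMaximal E F G) :
    (5 / 8 * len G ≤ max (side G 0) (side G 1) ∧ max (side G 0) (side G 1) ≤ 3 / 4 * len G) ∧
    H ≤ 23 / 5 ∧
    1 - 3 / 4 * tanh (H / 2) ≤ ‖moment G 1‖ ^ 2 + ‖moment G 2 - moment G 1 ^ 2‖ ∧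
    (∀ ε α : ℝ, ε = 1 ∨ ε = -1 →
      ¬ ∀ r ∈ Icc (0:ℝ) 1, ∀ θ : ℝ, G (1 - r, ε * θ + α) = G (r, θ)) ∧
    (∀ α : ℝ, sin α ≠ 0 → ¬ ∀ r ∈ Icc (0:ℝ) 1, ∀ θ : ℝ, G (r, θ + α) = G (r, θ)) ∧
    ((∀ r ∈ Icc (0:ℝ) 1, ∀ θ : ℝ, G (r, θ + π) = G (r, θ)) → H ≤ 2) := by
  refine ⟨hM.sides h, hM.modulus h, hM.moments h,
      fun ε α hε hG => ?_, fun α hα hG => ?_, fun hG => hM.half_turn h hG⟩
  · obtain ⟨r, hr, θ, hne⟩ := hM.no_exchange (α := α) h hε
    exact hne (hG r hr θ)
  · obtain ⟨r, hr, θ, hne⟩ := hM.no_rotation h hα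
    exact hne (hG r hr θ)

end Pool.Agent.Results.MP_f474b4_gt.RestrictionsOnMaximisers
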